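import Mathlib

/-!
# MP_5e9a16: Todd pseudocomplete dense subgroups of products

If a dense subset `G` of a product of topological groups is Todd pseudocomplete, then every
metrizable factor is completely metrizable.
-/

open Filter Topology Uniformity

namespace Pool.Agent.Results.MP_5e9a16_gt.Complete

/-- A nested sequence of sets. -/
def Nested {X : Type*} [TopologicalSpace X] (B : ℕ → Set X) : Prop :=
  ∀ n, closure (B (n + 1)) ⊆ interior (B n)

/-- A pseudobase. -/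
def IsPseudobase {X : Type*} [TopologicalSpace X] (𝓑 : Set (Set X)) : Prop :=
  (∀ B ∈ 𝓑, (interior B).Nonempty) ∧ ∀ U : Set X, IsOpen U → U.Nonempty → ∃ B ∈ 𝓑, B ⊆ U

/-- A complete sequence of pseudobases. -/
def IsCompleteSeq {X : Type*} [TopologicalSpace X] (𝓑 : ℕ → Set (Set X)) : Prop :=
  (∀ n, IsPseudobase (𝓑 n)) ∧
    ∀ B : ℕ → Set X, (∀ n, B n ∈ 𝓑 n) → Nested B → (⋂ n, B n).Nonempty

/-- Todd pseudocompleteness. -/
def ToddPseudocomplete (X : Type*) [TopologicalSpace X] : Prop :=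
  ∃ 𝓑 : ℕ → Set (Set X), IsCompleteSeq 𝓑

section main

variable {X : Type*} [TopologicalSpace X] [RegularSpace X]
  {H : Type*} [Group H] [MetricSpace H] [IsTopologicalGroup H]

/-- The state of the construction. -/
structure St (𝓑 : ℕ → Set (Set X)) (f : X → H) (h : ℕ → H) (n : ℕ) where
  (B B' : Set X)
  (O O' : Set H)
  (m : ℕ)
  hB : B ∈ 𝓑 n
  hB' : B' ∈ 𝓑 n
  hO : IsOpen O
  hO' : IsOpen O'
  neO : O.Nonempty
  neO' : O'.Nonempty
  dO : O ⊆ closure (f '' interior B)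
  dO' : O' ⊆ closure (f '' interior B')
  hm : ∀ k, m ≤ k → ∀ y ∈ O', h k * y ∈ O

omit [RegularSpace X] [Group H] [IsTopologicalGroup H] in
/-- Choosing a member of the pseudobase over a small open set. -/
theorem choose_member [RegularSpace X] {𝓑 : Set (Set X)} (h𝓑 : IsPseudobase 𝓑) {f : X → H}
    (hf : Continuous f)
    (hsk : ∀ U : Set X, IsOpen U → U.Nonempty → (interior (closure (f '' U))).Nonempty)
    {U : Set X} (hU : IsOpen U) {O V : Set H} (hV : IsOpen V) (hVne : V.Nonempty)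
    (hVO : V ⊆ O) (hO : O ⊆ closure (f '' U)) :
    ∃ B ∈ 𝓑, closure B ⊆ U ∧ B ⊆ f ⁻¹' V ∧ ∃ O₁ : Set H, IsOpen O₁ ∧ O₁.Nonempty ∧ O₁ ⊆ V ∧
      O₁ ⊆ closure (f '' interior B) := by
  obtain ⟨v, hv⟩ := hVne
  obtain ⟨_, hx1, ⟨x, hxU, rfl⟩⟩ := mem_closure_iff.1 (hO (hVO hv)) V hV hv
  have hopen : IsOpen (U ∩ f ⁻¹' V) := hU.inter (hV.preimage hf)
  obtain ⟨T, hT, hTc, hTsub⟩ := exists_mem_nhds_isClosed_subset (hopen.mem_nhds ⟨hxU, hx1⟩)
  obtain ⟨B, hB, hBT⟩ := h𝓑.2 (interior T) isOpen_interior ⟨x, mem_interior_iff_mem_nhds.2 hT⟩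
  have hBT' : B ⊆ T := hBT.trans interior_subset
  refine ⟨B, hB, ?_, ?_, ?_⟩
  · exact ((closure_minimal hBT' hTc).trans hTsub).trans Set.inter_subset_left
  · exact (hBT'.trans hTsub).trans Set.inter_subset_right
  · have h1 := hsk (interior B) isOpen_interior (h𝓑.1 B hB)
    obtain ⟨z, hz⟩ := h1
    refine ⟨interior (closure (f '' interior B)) ∩ V, isOpen_interior.inter hV, ?_,
      Set.inter_subset_right, Set.inter_subset_left.trans interior_subset⟩
    obtain ⟨w, hw1, ⟨b, hb, rfl⟩⟩ := mem_closure_iff.1 (interior_subset hz) _ isOpen_interior hz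
    exact ⟨f b, hw1, hTsub (hBT' (interior_subset hb)) |>.2⟩

/-- The inductive step. -/
theorem step {𝓑 : ℕ → Set (Set X)} (h𝓑 : ∀ n, IsPseudobase (𝓑 n)) {f : X → H}
    (hf : Continuous f)
    (hsk : ∀ U : Set X, IsOpen U → U.Nonempty → (interior (closure (f '' U))).Nonempty)
    (h : ℕ → H)
    (hl : ∀ W ∈ 𝓝 (1 : H), ∃ N, ∀ k, N ≤ k → ∀ l, N ≤ l → (h k)⁻¹ * h l ∈ W)
    (hr : ∀ W ∈ 𝓝 (1 : H), ∃ N, ∀ k, N ≤ k → ∀ l, N ≤ l → h k * (h l)⁻¹ ∈ W)
    (n : ℕ) (s : St 𝓑 f h n) : ∃ s' : St 𝓑 f h (n + 1),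
      closure s'.B ⊆ interior s.B ∧ closure s'.B' ⊆ interior s.B' ∧ n + 1 ≤ s'.m ∧
      (∀ a ∈ s'.B, ∀ o ∈ s'.O, dist (f a) o < 1 / ((n : ℝ) + 1)) ∧
      (∀ a ∈ s'.B', ∀ o ∈ s'.O', dist (f a) o < 1 / ((n : ℝ) + 1)) := by
  have hpos : (0 : ℝ) < 1 / ((n : ℝ) + 1) := by positivity
  obtain ⟨y0, hy0⟩ := s.neO'
  -- first the primed side
  obtain ⟨B', hB', hcB', hB'V, O1, hO1, ⟨y, hy⟩, hO1V, hO1d⟩ :=
    choose_member (h𝓑 (n + 1)) hf hsk (U := interior s.B') isOpen_interior (O := s.O')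
      (V := s.O' ∩ Metric.ball y0 (1 / ((n : ℝ) + 1) / 2))
      (s.hO'.inter Metric.isOpen_ball) ⟨y0, hy0, Metric.mem_ball_self (by positivity)⟩
      Set.inter_subset_left s.dO'
  -- the neighbourhood `W`
  have hcont1 : Tendsto (fun p : H × H => y * p.1 * p.2) (𝓝 (1, 1)) (𝓝 y) := by
    have : Continuous (fun p : H × H => y * p.1 * p.2) := by fun_prop
    simpa using this.tendsto (1, 1)
  have h1 : ∃ W : Set H, IsOpen W ∧ (1 : H) ∈ W ∧ ∀ a ∈ W, ∀ b ∈ W, y * a * b ∈ O1 := by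
    have h2 := hcont1 (hO1.mem_nhds hy)
    rw [nhds_prod_eq, mem_map, mem_prod_iff] at h2
    obtain ⟨W1, hW1, W2, hW2, hsub⟩ := h2
    refine ⟨interior (W1 ∩ W2), isOpen_interior, mem_interior_iff_mem_nhds.2
      (inter_mem hW1 hW2), ?_⟩
    intro a ha b hb
    exact hsub (Set.mk_mem_prod (interior_subset ha).1 (interior_subset hb).2)
  obtain ⟨W, hW, hW1, hWW⟩ := h1
  have hW'' : {w : H | y⁻¹ * w * y ∈ W} ∈ 𝓝 (1 : H) := by
    have : Continuous (fun w : H => y⁻¹ * w * y) := by fun_prop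
    apply (hW.preimage this).mem_nhds
    simpa using hW1
  obtain ⟨N1, hN1⟩ := hl _ hW''
  let m' := max s.m N1
  -- the set `V`
  let V : Set H := {x | y⁻¹ * (h m')⁻¹ * x ∈ W} ∩ Metric.ball (h m' * y) (1 / ((n : ℝ) + 1) / 2)
  have hV : IsOpen V := by
    have : Continuous (fun x : H => y⁻¹ * (h m')⁻¹ * x) := by fun_prop
    exact (hW.preimage this).inter Metric.isOpen_ball
  have hVne : V.Nonempty := by
    refine ⟨h m' * y, ?_, Metric.mem_ball_self (by positivity)⟩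
    show y⁻¹ * (h m')⁻¹ * (h m' * y) ∈ W
    have : y⁻¹ * (h m')⁻¹ * (h m' * y) = 1 := by group
    rw [this]
    exact hW1
  have hVO : V ⊆ s.O := by
    rintro x ⟨hx, -⟩
    have h3 : y * (y⁻¹ * (h m')⁻¹ * x) * 1 ∈ O1 := hWW _ hx _ hW1
    have h4 := s.hm m' (le_max_left _ _) _ (hO1V h3).1
    have h5 : h m' * (y * (y⁻¹ * (h m')⁻¹ * x) * 1) = x := by group
    rwa [h5] at h4
  obtain ⟨B, hB, hcB, hBV, O, hO, ⟨x', hx'⟩, hOV, hOd⟩ :=
    choose_member (h𝓑 (n + 1)) hf hsk (U := interior s.B) isOpen_interior (O := s.O)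
      (V := V) hV hVne hVO s.dO
  -- the neighbourhood `P`
  have hcont2 : Tendsto (fun p : H × H => p.1 * x' * p.2) (𝓝 (1, 1)) (𝓝 x') := by
    have : Continuous (fun p : H × H => p.1 * x' * p.2) := by fun_prop
    simpa using this.tendsto (1, 1)
  have h1 : ∃ P : Set H, IsOpen P ∧ (1 : H) ∈ P ∧ ∀ a ∈ P, ∀ b ∈ P, a * x' * b ∈ O := by
    have h2 := hcont2 (hO.mem_nhds hx')
    rw [nhds_prod_eq, mem_map, mem_prod_iff] at h2
    obtain ⟨W1, hW1, W2, hW2, hsub⟩ := h2
    refine ⟨interior (W1 ∩ W2), isOpen_interior, mem_interior_iff_mem_nhds.2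
      (inter_mem hW1 hW2), ?_⟩
    intro a ha b hb
    exact hsub (Set.mk_mem_prod (interior_subset ha).1 (interior_subset hb).2)
  obtain ⟨P, hP, hP1, hPP⟩ := h1
  obtain ⟨N2, hN2⟩ := hr P (hP.mem_nhds hP1)
  let k0 := max (max m' N2) (n + 1)
  have hk0m : m' ≤ k0 := (le_max_left _ _).trans (le_max_left _ _)
  have hk0N : N2 ≤ k0 := (le_max_right _ _).trans (le_max_left _ _)
  let y' : H := (h k0)⁻¹ * x'
  have hy' : y' ∈ O1 := by
    have h3 := hN1 k0 ((le_max_right _ _).trans hk0m) m' (le_max_right _ _)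
    have h4 := (hOV hx').1
    have h5 := hWW _ h3 _ h4
    have h6 : y * (y⁻¹ * ((h k0)⁻¹ * h m') * y) * (y⁻¹ * (h m')⁻¹ * x') = y' := by
      show _ = (h k0)⁻¹ * x'
      group
    rwa [h6] at h5
  let O' : Set H := O1 ∩ {z | y'⁻¹ * z ∈ P}
  have hO'o : IsOpen O' := by
    have : Continuous (fun z : H => y'⁻¹ * z) := by fun_prop
    exact hO1.inter (hP.preimage this)
  refine ⟨⟨B, B', O, O', k0, hB, hB', hO, hO'o, ⟨x', hx'⟩, ⟨y', hy', by simpa using hP1⟩, hOd,
    Set.inter_subset_left.trans hO1d, ?_⟩, hcB, hcB', le_max_right _ _, ?_, ?_⟩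
  · rintro k hk z ⟨-, hz⟩
    have h3 := hPP _ (hN2 k (hk0N.trans hk) k0 hk0N) _ hz
    have h4 : h k * (h k0)⁻¹ * x' * (y'⁻¹ * z) = h k * z := by
      show h k * (h k0)⁻¹ * x' * (((h k0)⁻¹ * x')⁻¹ * z) = h k * z
      group
    rwa [h4] at h3
  · intro a ha o ho
    have h3 : f a ∈ Metric.ball (h m' * y) (1 / ((n : ℝ) + 1) / 2) := (hBV ha).2
    have h4 : o ∈ Metric.ball (h m' * y) (1 / ((n : ℝ) + 1) / 2) := (hOV ho).2
    have h5 := dist_triangle_right (f a) o (h m' * y)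
    rw [Metric.mem_ball] at h3 h4
    linarith
  · intro a ha o ho
    have h3 : f a ∈ Metric.ball y0 (1 / ((n : ℝ) + 1) / 2) := (hB'V ha).2
    have h4 : o ∈ Metric.ball y0 (1 / ((n : ℝ) + 1) / 2) := (hO1V ho.1).2
    have h5 := dist_triangle_right (f a) o y0
    rw [Metric.mem_ball] at h3 h4
    linarith

/-- The initial state. -/
theorem init {𝓑 : ℕ → Set (Set X)} (h𝓑 : ∀ n, IsPseudobase (𝓑 n)) {f : X → H}
    (hf : Continuous f) (hd : DenseRange f)
    (hsk : ∀ U : Set X, IsOpen U → U.Nonempty → (interior (closure (f '' U))).Nonempty)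
    (h : ℕ → H)
    (hr : ∀ W ∈ 𝓝 (1 : H), ∃ N, ∀ k, N ≤ k → ∀ l, N ≤ l → h k * (h l)⁻¹ ∈ W) :
    Nonempty (St 𝓑 f h 0) := by
  have hd' : (Set.univ : Set H) ⊆ closure (f '' Set.univ) := by
    rw [Set.image_univ, hd.closure_range]
  obtain ⟨B, hB, -, -, O, hO, ⟨x', hx'⟩, -, hOd⟩ :=
    choose_member (h𝓑 0) hf hsk (U := Set.univ) isOpen_univ (O := Set.univ)
      (V := Set.univ) isOpen_univ ⟨1, trivial⟩ subset_rfl hd'
  have hcont2 : Tendsto (fun p : H × H => p.1 * x' * p.2) (𝓝 (1, 1)) (𝓝 x') := by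
    have : Continuous (fun p : H × H => p.1 * x' * p.2) := by fun_prop
    simpa using this.tendsto (1, 1)
  have h1 : ∃ P : Set H, IsOpen P ∧ (1 : H) ∈ P ∧ ∀ a ∈ P, ∀ b ∈ P, a * x' * b ∈ O := by
    have h2 := hcont2 (hO.mem_nhds hx')
    rw [nhds_prod_eq, mem_map, mem_prod_iff] at h2
    obtain ⟨W1, hW1, W2, hW2, hsub⟩ := h2
    refine ⟨interior (W1 ∩ W2), isOpen_interior, mem_interior_iff_mem_nhds.2
      (inter_mem hW1 hW2), ?_⟩
    intro a ha b hb
    exact hsub (Set.mk_mem_prod (interior_subset ha).1 (interior_subset hb).2)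
  obtain ⟨P, hP, hP1, hPP⟩ := h1
  obtain ⟨N2, hN2⟩ := hr P (hP.mem_nhds hP1)
  let y' : H := (h N2)⁻¹ * x'
  have hVo : IsOpen {z | y'⁻¹ * z ∈ P} := by
    have : Continuous (fun z : H => y'⁻¹ * z) := by fun_prop
    exact hP.preimage this
  obtain ⟨B', hB', -, -, O', hO', hO'ne, hO'V, hO'd⟩ :=
    choose_member (h𝓑 0) hf hsk (U := Set.univ) isOpen_univ (O := Set.univ)
      (V := {z | y'⁻¹ * z ∈ P}) hVo ⟨y', by simpa using hP1⟩ (Set.subset_univ _) hd'
  refine ⟨⟨B, B', O, O', N2, hB, hB', hO, hO', ⟨x', hx'⟩, hO'ne, hOd, hO'd, ?_⟩⟩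
  rintro k hk z hz
  have h3 := hPP _ (hN2 k hk N2 le_rfl) _ (hO'V hz)
  have h4 : h k * (h N2)⁻¹ * x' * (y'⁻¹ * z) = h k * z := by
    show h k * (h N2)⁻¹ * x' * (((h N2)⁻¹ * x')⁻¹ * z) = h k * z
    group
  rwa [h4] at h3

/-- Two-sided Cauchy sequences have convergent subsequences. -/
theorem exists_subseq (hX : ToddPseudocomplete X) {f : X → H}
    (hf : Continuous f) (hd : DenseRange f)
    (hsk : ∀ U : Set X, IsOpen U → U.Nonempty → (interior (closure (f '' U))).Nonempty)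
    (h : ℕ → H)
    (hl : ∀ W ∈ 𝓝 (1 : H), ∃ N, ∀ k, N ≤ k → ∀ l, N ≤ l → (h k)⁻¹ * h l ∈ W)
    (hr : ∀ W ∈ 𝓝 (1 : H), ∃ N, ∀ k, N ≤ k → ∀ l, N ≤ l → h k * (h l)⁻¹ ∈ W) :
    ∃ (a : H) (m : ℕ → ℕ), Tendsto m atTop atTop ∧ Tendsto (fun n => h (m n)) atTop (𝓝 a) := by
  obtain ⟨𝓑, h𝓑, hcomp⟩ := hX
  obtain ⟨s0⟩ := init h𝓑 hf hd hsk h hr
  choose F hF1 hF2 hF3 hF4 hF5 using step h𝓑 hf hsk h hl hr
  let s : (n : ℕ) → St 𝓑 f h n := fun n => Nat.rec s0 (fun n s => F n s) n
  have hs : ∀ n, s (n + 1) = F n (s n) := fun n => rfl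
  obtain ⟨g, hg⟩ := hcomp (fun n => (s n).B) (fun n => (s n).hB) (fun n => hF1 n (s n))
  obtain ⟨g', hg'⟩ := hcomp (fun n => (s n).B') (fun n => (s n).hB') (fun n => hF2 n (s n))
  rw [Set.mem_iInter] at hg hg'
  choose y hy using fun n => (s (n + 1)).neO'
  have hlim0 : Tendsto (fun n : ℕ => 1 / ((n : ℝ) + 1)) atTop (𝓝 0) :=
    tendsto_one_div_add_atTop_nhds_zero_nat
  have h1 : Tendsto y atTop (𝓝 (f g')) := by
    rw [tendsto_iff_dist_tendsto_zero]
    refine squeeze_zero (fun _ => dist_nonneg) (fun n => ?_) hlim0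
    have := hF5 n (s n) g' (by rw [← hs]; exact hg' (n + 1)) (y n) (by rw [← hs]; exact hy n)
    rw [dist_comm]
    exact this.le
  have h2 : Tendsto (fun n => h (s (n + 1)).m * y n) atTop (𝓝 (f g)) := by
    rw [tendsto_iff_dist_tendsto_zero]
    refine squeeze_zero (fun _ => dist_nonneg) (fun n => ?_) hlim0
    have h3 : h (s (n + 1)).m * y n ∈ (s (n + 1)).O := (s (n + 1)).hm _ le_rfl _ (hy n)
    have := hF4 n (s n) g (by rw [← hs]; exact hg (n + 1)) (h (s (n + 1)).m * y n)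
      (by rw [← hs]; exact h3)
    rw [dist_comm]
    exact this.le
  refine ⟨f g * (f g')⁻¹, fun n => (s (n + 1)).m, ?_, ?_⟩
  · refine tendsto_atTop_mono (fun n => ?_) tendsto_id
    have := hF3 n (s n)
    show n ≤ (s (n + 1)).m
    rw [hs]
    omega
  · have := h2.mul h1.inv
    refine this.congr (fun n => ?_)
    group

end main

/-- The two-sided uniformity. -/
@[reducible] def twoSided (H : Type*) [Group H] [t : TopologicalSpace H] [IsTopologicalGroup H] :
    UniformSpace H :=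
  (IsTopologicalGroup.leftUniformSpace H ⊓ IsTopologicalGroup.rightUniformSpace H).replaceTopology
    (by
      rw [UniformSpace.toTopologicalSpace_inf]
      exact (inf_idem t).symm)

theorem completelyMetrizable_of_skeletal {X : Type*} [TopologicalSpace X] [RegularSpace X]
    {H : Type*} [Group H] [TopologicalSpace H] [IsTopologicalGroup H]
    [TopologicalSpace.MetrizableSpace H] (hX : ToddPseudocomplete X) {f : X → H}
    (hf : Continuous f) (hd : DenseRange f)
    (hsk : ∀ U : Set X, IsOpen U → U.Nonempty → (interior (closure (f '' U))).Nonempty) :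
    TopologicalSpace.IsCompletelyMetrizableSpace H := by
  let _ : UniformSpace H := twoSided H
  have hunif : 𝓤 H = comap (fun p : H × H => p.1⁻¹ * p.2) (𝓝 1) ⊓
      comap (fun p : H × H => p.2 * p.1⁻¹) (𝓝 1) := rfl
  have hcg : (𝓤 H).IsCountablyGenerated := by
    rw [hunif]
    infer_instance
  have hcomplete : CompleteSpace H := by
    apply UniformSpace.complete_of_cauchySeq_tendsto
    intro h hh
    have hl : ∀ W ∈ 𝓝 (1 : H), ∃ N, ∀ k, N ≤ k → ∀ l, N ≤ l → (h k)⁻¹ * h l ∈ W := by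
      intro W hW
      have : {p : H × H | p.1⁻¹ * p.2 ∈ W} ∈ 𝓤 H := by
        rw [hunif]
        exact mem_inf_of_left (preimage_mem_comap hW)
      obtain ⟨N, hN⟩ := cauchySeq_iff.1 hh _ this
      exact ⟨N, fun k hk l hl => hN k hk l hl⟩
    have hr : ∀ W ∈ 𝓝 (1 : H), ∃ N, ∀ k, N ≤ k → ∀ l, N ≤ l → h k * (h l)⁻¹ ∈ W := by
      intro W hW
      have : {p : H × H | p.2 * p.1⁻¹ ∈ W} ∈ 𝓤 H := by
        rw [hunif]
        exact mem_inf_of_right (preimage_mem_comap hW)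
      obtain ⟨N, hN⟩ := cauchySeq_iff.1 hh _ this
      exact ⟨N, fun k hk l hl => hN l hl k hk⟩
    have hex : ∃ (a : H) (m : ℕ → ℕ), Tendsto m atTop atTop ∧
        Tendsto (fun n => h (m n)) atTop (𝓝 a) := by
      let _ : MetricSpace H := TopologicalSpace.metrizableSpaceMetric H
      exact exists_subseq hX hf hd hsk h hl hr
    obtain ⟨a, m, hm, ha⟩ := hex
    exact ⟨a, tendsto_nhds_of_cauchySeq_of_subseq hh hm ha⟩
  have : T0Space H := inferInstance
  exact TopologicalSpace.IsCompletelyMetrizableSpace.of_completeSpace_metrizable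

/-- Let `(H i)` be topological groups and let `G` be a dense subgroup (or just a dense
subset) of `∏ H i`.  If `G` is Todd pseudocomplete, then every metrizable `H j` is completely
metrizable. -/
theorem result {I : Type*} {H : I → Type*} [∀ i, Group (H i)] [∀ i, TopologicalSpace (H i)]
    [∀ i, IsTopologicalGroup (H i)] (G : Set (∀ i, H i)) (hG : Dense G)
    (hT : ToddPseudocomplete G) (j : I) [TopologicalSpace.MetrizableSpace (H j)] :
    TopologicalSpace.IsCompletelyMetrizableSpace (H j) := by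
  classical
  let f : G → H j := fun x => (x : ∀ i, H i) j
  have hf : Continuous f := (continuous_apply j).comp continuous_subtype_val
  have key : ∀ U : Set G, IsOpen U → U.Nonempty → ∃ O : Set (H j), IsOpen O ∧ O.Nonempty ∧
      O ⊆ closure (f '' U) := by
    rintro U hU ⟨x, hx⟩
    obtain ⟨V, hV, rfl⟩ := isOpen_induced_iff.1 hU
    obtain ⟨F, u, hu, hsub⟩ := isOpen_pi_iff.1 hV x hx
    refine ⟨if j ∈ F then u j else Set.univ, ?_, ?_, ?_⟩
    · split_ifs with hj
      · exact (hu j hj).1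
      · exact isOpen_univ
    · split_ifs with hj
      · exact ⟨_, (hu j hj).2⟩
      · exact ⟨1, trivial⟩
    · intro z hz
      rw [mem_closure_iff]
      intro T hT hzT
      -- an open box
      let box : Set (∀ i, H i) := {w | (∀ i ∈ F, w i ∈ u i) ∧ w j ∈ T}
      have hbox : IsOpen box := by
        have h1 : box = (⋂ i ∈ F, (fun w : ∀ i, H i => w i) ⁻¹' u i) ∩
            (fun w : ∀ i, H i => w j) ⁻¹' T := by
          ext w
          simp [box]
        rw [h1]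
        refine IsOpen.inter (isOpen_biInter_finset (fun i hi => ?_)) ?_
        · exact (hu i hi).1.preimage (continuous_apply i)
        · exact hT.preimage (continuous_apply j)
      have hne : box.Nonempty := by
        refine ⟨Function.update (x : ∀ i, H i) j z, ?_, ?_⟩
        · intro i hi
          by_cases hij : i = j
          · subst hij
            rw [Function.update_self]
            rwa [if_pos hi] at hz
          · rw [Function.update_of_ne hij]
            exact (hu i hi).2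
        · rw [Function.update_self]
          exact hzT
      obtain ⟨w, hwbox, hwG⟩ := hG.inter_open_nonempty box hbox hne
      refine ⟨w j, hwbox.2, ⟨⟨w, hwG⟩, ?_, rfl⟩⟩
      apply hsub
      intro i hi
      exact hwbox.1 i hi
  have hsk : ∀ U : Set G, IsOpen U → U.Nonempty →
      (interior (closure (f '' U))).Nonempty := by
    intro U hU hUne
    obtain ⟨O, hO, hOne, hOsub⟩ := key U hU hUne
    exact hOne.mono (interior_maximal hOsub hO)
  have hd : DenseRange f := by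
    have h1 : Dense ((fun w : ∀ i, H i => w j) '' G) := by
      have h2 : DenseRange (fun w : ∀ i, H i => w j) := by
        apply Function.Surjective.denseRange
        intro z
        exact ⟨Function.update 1 j z, by simp⟩
      exact h2.dense_image (continuous_apply j) hG
    have h3 : Set.range f = (fun w : ∀ i, H i => w j) '' G := by
      ext z
      constructor
      · rintro ⟨x, rfl⟩
        exact ⟨x, x.2, rfl⟩
      · rintro ⟨x, hx, rfl⟩
        exact ⟨⟨x, hx⟩, rfl⟩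
    rw [DenseRange, h3]
    exact h1
  exact completelyMetrizable_of_skeletal hT hf hd hsk

end Pool.Agent.Results.MP_5e9a16_gt.Complete
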